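import Pool.Agent.Helper18.UW.GoalsP
import Pool.Agent.Helper16.EW.PG

/-!
# PGu: prices, unequal multiplicities (project UW of helper18, MP_d3128a_ag)
-/

set_option autoImplicit false

namespace Pool.Agent.Helper67.UW

open Finset
open Pool.Agent.Helper43.Hw (T na va lz Play)
open Pool.Agent.Helper43.Gm (Pri st mv nn)
open Pool.Agent.Helper18.EW
open Pool.Agent.Helper18.UW
open Pool.Agent.Helper16.EW (rmono dl One rr rk sl lt_st st_le drop_spe dl_pos sl_pos)

/-- the potentials -/
def PU (m : ℕ → ℕ) (R : ℕ) (κ x P : ℕ → ℕ) (τ s t : ℕ) : ℕ :=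
  if τ ≤ t ∧ t < s then P t else if 0 < x t then 2 * (m (κ t) - x t) + 1
    else 2 * (m (κ t) + R - t) + 1

section play
variable {R N τ s E : ℕ} {κ : ℕ → ℕ}

theorem rr_mono' (h : ∀ y, y + 1 < R → κ y ≤ κ (y + 1)) (hts : τ < s) (hsR : s < R)
    (hg : κ (τ - 1) < κ τ) (t : ℕ) (ht : t + 1 < R) : rr κ τ s t ≤ rr κ τ s (t + 1) := by
  have h1 := h t ht
  unfold rr
  rcases Nat.lt_or_ge (t + 1) τ with h2 | h2
  · rw [if_pos (by omega), if_pos h2]; exact h1
  rw [if_neg (by omega : ¬ t + 1 < τ)]
  rcases Nat.lt_or_ge t τ with h3 | h3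
  · rw [if_pos h3, if_pos (by omega)]
    exact rmono h h3.le (by omega)
  rw [if_neg (by omega)]
  rcases Nat.lt_or_ge (t + 1) s with h4 | h4
  · rw [if_pos (by omega), if_pos h4]
  rw [if_neg (by omega : ¬ t + 1 < s)]
  have h5 : κ τ ≤ κ (t + 1) := rmono h (by omega) ht
  split_ifs <;> omega

theorem rr_ord' (h : ∀ y, y + 1 < R → κ y ≤ κ (y + 1)) (hts : τ < s) (hsR : s < R)
    (hg : κ (τ - 1) < κ τ) (hp : ∀ t, τ ≤ t → t < s → κ t = κ τ) {c t : ℕ} (hc : c < N)
    (ht : t < R) :
    (rr κ τ s t = rk N (κ τ) c ↔ κ t = c ∧ ¬ (τ ≤ t ∧ t < s)) ∧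
      (rk N (κ τ) c < rr κ τ s t ↔ c < κ t) := by
  unfold rr rk
  rcases Nat.lt_or_ge t τ with h1 | h1
  · have h3 : κ t ≤ κ (τ - 1) := rmono h (by omega) (by omega)
    rw [if_pos h1]
    split_ifs <;> omega
  · rw [if_neg (by omega)]
    have h3 : κ τ ≤ κ t := rmono h h1 ht
    rcases Nat.lt_or_ge t s with h4 | h4
    · have h5 := hp t h1 h4
      rw [if_pos h4]
      split_ifs <;> omega
    · rw [if_neg (by omega)]
      split_ifs <;> omega

theorem rr_spe' (h : ∀ y, y + 1 < R → κ y ≤ κ (y + 1)) (hts : τ < s) (hsR : s < R)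
    (hg : κ (τ - 1) < κ τ) {t : ℕ} (ht : t < R) :
    (rr κ τ s t = κ τ ↔ τ ≤ t ∧ t < s) ∧ (κ τ < rr κ τ s t ↔ s ≤ t) := by
  unfold rr
  rcases Nat.lt_or_ge t τ with h1 | h1
  · have h3 : κ t ≤ κ (τ - 1) := rmono h (by omega) (by omega)
    rw [if_pos h1]
    omega
  · rw [if_neg (by omega)]
    have h3 : κ τ ≤ κ t := rmono h h1 ht
    split_ifs <;> omega

end play

section ord
variable {m : ℕ → ℕ} {R N τ s E : ℕ} {κ x e P : ℕ → ℕ}

theorem x_leU (h : UPlay m R N κ x) {y : ℕ} (hy : y < R) (hk : κ y < N) : x y ≤ m (κ y) := by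
  rcases Nat.lt_or_ge (y + 1) R with h1 | h1
  · exact (h.lt y h1 hk).le
  · have h2 : y = R - 1 := by omega
    rw [h2] at hk ⊢
    exact (h.lastx hk).le

theorem drop_ordU (h : UPlay m R N κ x) {t : ℕ} (ht : t + 1 < R)
    (hk : κ (t + 1) = κ t) (hN : κ t < N) (h1 : ¬ (τ ≤ t ∧ t < s))
    (h2 : ¬ (τ ≤ t + 1 ∧ t + 1 < s)) :
    PU m R κ x P τ s (t + 1) + 2 ≤ PU m R κ x P τ s t := by
  unfold PU
  rw [if_neg h1, if_neg h2]
  have h3 := x_leU h ht (by omega)
  have h4 := h.lt t ht hN
  rw [hk] at h3 ⊢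
  rcases Nat.eq_zero_or_pos (x t) with h5 | h5
  · rw [if_neg (by omega : ¬ 0 < x t)]
    split_ifs <;> omega
  · have h6 := h.inc t ht h5 hk
    rw [if_pos h5, if_pos (by omega)]
    omega

/-- an ordinary point -/
theorem pri_ordU (hpl : UPlay m R N κ x) (hts : τ < s) (hsR : s < R)
    (hpa : ∀ t, τ ≤ t → t < s → κ t = κ τ ∧ x t = na (m (κ τ)) R t) (hg : κ (τ - 1) < κ τ)
    {c : ℕ} (hc : c < N) {V : ℕ → ℤ}
    (hV : One R (rr κ τ s) (PU m R κ x P τ s) (rk N (κ τ) c) 2 V) {y : ℕ} (hy : y < R)
    (hn : 0 < va (m c) R κ x c y) :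
    ∃ U : Finset ℕ, y ∉ U ∧ U.card + va (m c) R κ x c y ≤ m c ∧
      ∀ y' < R, y' ∉ U → y' ≠ y → V y' < V y := by
  have hp1 : ∀ t, τ ≤ t → t < s → κ t = κ τ := fun t h1 h2 => (hpa t h1 h2).1
  obtain ⟨h1, h2⟩ := rr_ord' hpl.mono hts hsR hg hp1 hc hy
  rcases lt_trichotomy (rr κ τ s y) (rk N (κ τ) c) with h3 | h3 | h3
  · have h4 : va (m c) R κ x c y = na (m c) R y := by
      unfold va
      rcases Nat.lt_or_ge (κ y) c with h5 | h5
      · rw [if_pos h5]
      · rw [if_neg (by omega)]
        have h6 : κ y = c := by omega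
        have h7 : τ ≤ y ∧ y < s := by
          by_contra h8
          have := h1.2 ⟨h6, h8⟩
          omega
        unfold nn
        rw [if_neg (by omega), if_pos h6]
        have h8 := hpa y h7.1 h7.2
        rw [h8.2, ← h8.1, h6]
    rw [h4] at hn ⊢
    refine ⟨Ioo y R, by simp, ?_, ?_⟩
    · rw [Nat.card_Ioo]
      unfold na at hn ⊢
      omega
    · intro y' h5 h6 h7
      rw [mem_Ioo] at h6
      exact hV.before hy h3 (by omega)
  · have h4 := h1.1 h3
    have h5 : va (m c) R κ x c y = x y := by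
      unfold va nn
      rw [if_neg (by omega), if_neg (by omega), if_pos h4.1]
    rw [h5] at hn ⊢
    have h6 : x y ≤ m c := by
      have := x_leU hpl hy (by omega)
      rwa [h4.1] at this
    refine ⟨Ioc y (y + (m c - x y)), by simp, ?_, ?_⟩
    · rw [Nat.card_Ioc]
      omega
    · intro y' h7 h8 h9
      rw [mem_Ioc] at h8
      refine hV.inside hy h3 h7 h9 ?_
      intro h10
      unfold PU
      rw [if_neg h4.2, if_pos hn, h4.1]
      omega
  · have h4 := h2.1 h3
    have h5 : va (m c) R κ x c y =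
        m c - (y - st κ c y) - (mv κ x (fun _ => m c) c y).card := by
      unfold va nn
      rw [if_neg (by omega), if_neg (by omega), if_neg (by omega)]
    rw [h5] at hn ⊢
    have hst := st_le (κ := κ) (c := c) (y := y)
    refine ⟨Ico (st κ c y) y ∪ mv κ x (fun _ => m c) c y, ?_, ?_, ?_⟩
    · simp [mv]
    · have h6 := card_union_le (Ico (st κ c y) y) (mv κ x (fun _ => m c) c y)
      rw [Nat.card_Ico] at h6
      omega
    · intro y' h6 h7 h8
      rw [mem_union, mem_Ico] at h7
      have h9 : y' < y → κ y' ≤ c := by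
        intro h10
        refine (lt_st (κ := κ) (fun a b h11 h12 => rmono hpl.mono h11 (by omega)) h10).1 ?_
        by_contra h13
        exact h7 (Or.inl ⟨by omega, h10⟩)
      obtain ⟨h10, h11⟩ := rr_ord' hpl.mono hts hsR hg hp1 hc h6
      refine hV.after hy h3 h6 h8 ?_ ?_
      · intro h12
        have := h9 h12
        by_contra h13
        have := h11.1 (by omega)
        omega
      · intro h12 h13
        have h14 := h10.1 h13
        unfold PU
        rw [if_neg h14.2, h14.1]
        rcases Nat.eq_zero_or_pos (x y') with h15 | h15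
        · rw [if_neg (by omega)]
          omega
        · rw [if_pos h15]
          have h16 : ¬ (m c + y' < x y' + y) := by
            intro h17
            refine h7 (Or.inr ?_)
            unfold mv
            rw [mem_filter, mem_range]
            exact ⟨h12, h14.1, h15, h17⟩
          omega

end ord

section spe
variable {μ R K τ s E : ℕ} {κ e P : ℕ → ℕ}

/-- a special point -/
theorem pri_speU (hmon : ∀ y, y + 1 < R → κ y ≤ κ (y + 1)) (hgr : Grp μ R K τ s E e P)
    (hg : κ (τ - 1) < κ τ) {i : ℕ} (hi : i < K) {V : ℕ → ℤ}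
    (hV : One R (rr κ τ s) (fun t => if τ ≤ t ∧ t < s then P t else 0) (κ τ) (e i) V ∨
      ∃ Q : ℕ → ℕ, (∀ t, τ ≤ t → t < s → Q t = P t) ∧ One R (rr κ τ s) Q (κ τ) (e i) V)
    {y : ℕ} (hy : y < R)
    (hn : 0 < va μ R (gk s e P i) (gx μ τ s e P i) 0 y) :
    ∃ U : Finset ℕ, y ∉ U ∧ U.card + va μ R (gk s e P i) (gx μ τ s e P i) 0 y ≤ μ ∧
      ∀ y' < R, y' ∉ U → y' ≠ y → V y' < V y := by
  have hV' : ∃ Q : ℕ → ℕ, (∀ t, τ ≤ t → t < s → Q t = P t) ∧
      One R (rr κ τ s) Q (κ τ) (e i) V := by
    rcases hV with hV | hV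
    · exact ⟨_, fun t h1 h2 => if_pos ⟨h1, h2⟩, hV⟩
    · exact hV
  clear hV
  obtain ⟨Q, hQ, hV⟩ := hV'
  have hts := hgr.ts
  have hsR := hgr.sR
  obtain ⟨he1, he2, he3⟩ := hgr.e1 i hi
  have hd : ∀ t, τ ≤ t → t + 1 < s → P (t + 1) + e i ≤ P t := fun t h1 h2 =>
    (Nat.add_le_add_left he2 _).trans (hgr.dr t h1 h2)
  have hgs : gs s e P i ≤ s ∧ s - 1 ≤ gs s e P i := by
    unfold gs; split_ifs <;> omega
  obtain ⟨h1, h2⟩ := rr_spe' hmon (by omega) (by omega) hg hy (s := s) (τ := τ)
  rcases Nat.lt_or_ge y τ with h3 | h3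
  · exfalso
    have h4 : va μ R (gk s e P i) (gx μ τ s e P i) 0 y = 0 := by
      unfold va nn
      rw [if_neg (by omega), if_neg (by omega)]
      have h5 : gk s e P i y = 0 := by
        unfold gk; rw [if_pos (by omega)]
      have h6 : gx μ τ s e P i y = 0 := by
        unfold gx; rw [if_neg (by omega)]
      rw [if_pos h5, h6]
    omega
  rcases Nat.lt_or_ge y s with h4 | h4
  · have h5 := h1.2 ⟨h3, h4⟩
    have hPP : Q y = P y := hQ y h3 h4
    have h6 : P y / e i + va μ R (gk s e P i) (gx μ τ s e P i) 0 y ≤ μ := by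
      rcases Nat.lt_or_ge y (gs s e P i) with h7 | h7
      · have h8 : va μ R (gk s e P i) (gx μ τ s e P i) 0 y = μ - P y / e i := by
          unfold va nn
          have h5 : gk s e P i y = 0 := by
            unfold gk; rw [if_pos (by omega)]
          have h6 : gx μ τ s e P i y = μ - P y / e i := by
            unfold gx; rw [if_pos ⟨h3, h7⟩]
          rw [if_neg (by omega), if_neg (by omega), if_pos h5, h6]
        omega
      · have h8 : y = s - 1 := by omega
        have h9 : P y < e i := by
          by_contra h10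
          have h11 : gs s e P i = s := by
            unfold gs
            rw [if_pos (by rw [← h8]; omega)]
          omega
        rw [Nat.div_eq_of_lt h9, zero_add]
        unfold va nn
        have h5 : gk s e P i y = 1 := by
          unfold gk; rw [if_neg (by omega)]
        rw [if_neg (by omega), if_neg (by omega), if_neg (by omega)]
        exact (Nat.sub_le _ _).trans (Nat.sub_le _ _)
    refine ⟨Ioc y (y + P y / e i), by simp, ?_, ?_⟩
    · rw [Nat.card_Ioc, Nat.add_sub_cancel_left]
      exact h6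
    · intro y' h7 h8 h9
      rw [mem_Ioc] at h8
      refine hV.inside hy h5 h7 h9 ?_
      intro h10
      rw [hPP, mul_comm]
      refine (Nat.div_lt_iff_lt_mul he1).1 ?_
      omega
  · have h5 := h2.2 h4
    have hgk : gk s e P i y = 1 := by
      unfold gk; rw [if_neg (by omega)]
    have hmono : ∀ a b, a ≤ b → b < y → gk s e P i a ≤ gk s e P i b := by
      intro a b hab hb
      unfold gk
      split_ifs <;> omega
    have hst : st (gk s e P i) 0 y = gs s e P i := by
      have h6 := st_le (κ := gk s e P i) (c := 0) (y := y)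
      have h7 : ∀ t < y, (t < st (gk s e P i) 0 y ↔ t < gs s e P i) := by
        intro t ht
        rw [lt_st hmono ht]
        unfold gk
        split_ifs <;> omega
      rcases lt_trichotomy (st (gk s e P i) 0 y) (gs s e P i) with h8 | h8 | h8
      · have := (h7 (st (gk s e P i) 0 y) (by omega)).2 h8
        omega
      · exact h8
      · have := (h7 (gs s e P i) (by omega)).1 h8
        omega
    have h6 : va μ R (gk s e P i) (gx μ τ s e P i) 0 y =
        μ - (y - gs s e P i) - (mv (gk s e P i) (gx μ τ s e P i) (fun _ => μ) 0 y).card := by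
      unfold va nn
      rw [if_neg (by omega), if_neg (by omega), if_neg (by omega), hst]
    rw [h6] at hn ⊢
    refine ⟨Ico (gs s e P i) y ∪ mv (gk s e P i) (gx μ τ s e P i) (fun _ => μ) 0 y, ?_, ?_, ?_⟩
    · simp [mv]
    · have h7 := card_union_le (Ico (gs s e P i) y)
        (mv (gk s e P i) (gx μ τ s e P i) (fun _ => μ) 0 y)
      rw [Nat.card_Ico] at h7
      omega
    · intro y' h7 h8 h9
      rw [mem_union, mem_Ico] at h8
      obtain ⟨h10, h11⟩ := rr_spe' hmon (by omega) (by omega) hg h7 (s := s) (τ := τ)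
      have h12 : y' < y → y' < gs s e P i := by
        intro h13
        by_contra h14
        exact h8 (Or.inl ⟨by omega, h13⟩)
      refine hV.after hy h5 h7 h9 ?_ ?_
      · intro h13
        have := h12 h13
        by_contra h14
        have := h11.1 (by omega)
        omega
      · intro h13 h14
        have h15 := h10.1 h14
        have h16 := h12 h13
        have hPP : Q y' = P y' := hQ y' h15.1 h15.2
        rw [hPP]
        by_contra h17
        have h18 : P y' / e i < y - y' := by
          rw [Nat.div_lt_iff_lt_mul he1, mul_comm]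
          omega
        have key : ∀ t, y' ≤ t → t < gs s e P i → P t / e i < μ → P t / e i + t < y →
            t ∈ mv (gk s e P i) (gx μ τ s e P i) (fun _ => μ) 0 y := by
          intro t t1 t2 t3 t4
          unfold mv
          rw [mem_filter, mem_range]
          have t5 : gk s e P i t = 0 := by
            unfold gk; rw [if_pos t2]
          have t6 : gx μ τ s e P i t = μ - P t / e i := by
            unfold gx; rw [if_pos ⟨by omega, t2⟩]
          rw [t5, t6]
          generalize P t / e i = q at *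
          refine ⟨by omega, rfl, by omega, ?_⟩
          show μ + t < μ - q + y
          omega
        rcases Nat.lt_or_ge (P y' / e i) μ with h19 | h19
        · exact h8 (Or.inr (key y' le_rfl h16 h19 (by omega)))
        · have h20 : Ico (y - μ) (gs s e P i) ⊆
              mv (gk s e P i) (gx μ τ s e P i) (fun _ => μ) 0 y := by
            intro t ht
            rw [mem_Ico] at ht
            have t1 : y' ≤ t := by
              have t0 := h19.trans_lt h18
              omega
            obtain ⟨n, rfl⟩ : ∃ n, t = y' + n := ⟨t - y', by omega⟩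
            have t2 := drop_spe hd h15.1 n (by omega)
            have t3 : P (y' + n) / e i + n ≤ P y' / e i := by
              have t4 := Nat.div_le_div_right (c := e i) t2
              rwa [Nat.add_mul_div_left _ _ he1] at t4
            generalize P y' / e i = qa at t3 h18 h19
            exact key _ t1 ht.2 (by generalize P (y' + n) / e i = qb at *; omega)
              (by generalize P (y' + n) / e i = qb at *; omega)
          have h21 := card_le_card h20
          rw [Nat.card_Ico] at h21
          have h22 := h19.trans_lt h18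
          clear h18 h19 h17 h20 key
          omega

end spe

theorem gV_one (μ R τ s a : ℕ) (P : ℕ → ℕ) (z : ℕ) : gV μ R 1 τ s (fun _ => a) P z =
    va μ R (gk s (fun _ => a) P 0) (gx μ τ s (fun _ => a) P 0) 0 z := by
  unfold gV
  rw [Finset.sum_range_one]

theorem goalPGu (hPA : GoalPA) : GoalPGu := by
  intro m ms μ δ R N K τ s E κ x e P hm hR hpl hgr hpa hg hgN
  have hts : τ < s := by have := hgr.ts; omega
  have hsR : s < R := by have := hgr.sR; omega
  have hp1 : ∀ t, τ ≤ t → t < s → κ t = κ τ := fun t h1 h2 => (hpa t h1 h2).1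
  have hr := rr_mono' hpl.mono hts hsR hg
  obtain ⟨π, ε, H⟩ := hPA R (N + K) (rr κ τ s) (dl R (rr κ τ s) (PU m R κ x P τ s))
    (rk N (κ τ)) (sl R N e) hr dl_pos sl_pos
  refine ⟨π, ε, ?_⟩
  intro c hc y hy hn
  have Hc := H c hc
  unfold combu at hn ⊢
  unfold mu
  rcases Nat.lt_or_ge c N with h1 | h1
  · rw [if_pos h1] at hn ⊢
    rw [if_pos h1]
    have hV : One R (rr κ τ s) (PU m R κ x P τ s) (rk N (κ τ) c) 2
        (fun z => π z - ε c * z) := by
      have hs : sl R N e c = 2 * (R + 2) := by unfold sl; rw [if_pos h1]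
      rw [hs] at Hc
      refine ⟨hr, by omega, ?_, ?_, ?_, ?_⟩
      · intro t ht h2 h3
        have h4 := (rr_ord' hpl.mono hts hsR hg hp1 h1 (by omega : t < R)).1.1 h2
        have h5 := (rr_ord' hpl.mono hts hsR hg hp1 h1 ht).1.1 h3
        exact drop_ordU hpl ht (by omega) (by omega) h4.2 h5.2
      · exact fun y z h2 h3 => (Hc y z h2 h3).1
      · exact fun y z h2 h3 => (Hc y z h2 h3).2.1
      · exact fun y z h2 h3 => (Hc y z h2 h3).2.2
    exact pri_ordU hpl hts hsR hpa hg h1 hV hy hn
  · rw [if_neg (by omega)] at hn ⊢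
    rw [if_neg (by omega)]
    have h2 : c - N < K := by omega
    rw [gV_one] at hn ⊢
    obtain ⟨he1, he2, he3⟩ := hgr.e1 _ h2
    have hV : One R (rr κ τ s) (PU m R κ x P τ s) (κ τ) (e (c - N))
        (fun z => π z - ε c * z) := by
      have hs : sl R N e c = e (c - N) * (R + 2) := by
        unfold sl
        rw [if_neg (by omega)]
        refine max_eq_right ?_
        have : 0 < e (c - N) * (R + 2) := by positivity
        omega
      have hk : rk N (κ τ) c = κ τ := by
        unfold rk
        rw [if_neg (by omega), if_neg (by omega)]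
      rw [hs, hk] at Hc
      refine ⟨hr, he1, ?_, ?_, ?_, ?_⟩
      · intro t ht h3 h4
        have h5 := (rr_spe' hpl.mono hts hsR hg (by omega : t < R)).1.1 h3
        have h6 := (rr_spe' hpl.mono hts hsR hg ht).1.1 h4
        unfold PU
        rw [if_pos h5, if_pos h6]
        exact (Nat.add_le_add_left he2 _).trans (hgr.dr t h5.1 h6.2)
      · exact fun y z h2 h3 => (Hc y z h2 h3).1
      · exact fun y z h2 h3 => (Hc y z h2 h3).2.1
      · exact fun y z h2 h3 => (Hc y z h2 h3).2.2
    exact pri_speU (e := fun _ => e (c - N)) hpl.mono (hgr.one h2) hg (i := 0) (by omega)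
      (Or.inr ⟨_, fun t t1 t2 => by unfold PU; rw [if_pos ⟨t1, t2⟩], hV⟩) hy hn

end Pool.Agent.Helper67.UW
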